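import Pool.Agent.W758.AHC.Stm

set_option autoImplicit false

namespace Pool.Agent.W264.AHC

open Pool.Agent.W758.AHC

theorem low : S_LOW := by
  intro n l m hl hm
  have hmn : m ≤ (Finset.univ : Finset (Fin n)).card := by
    rw [Finset.card_univ, Fintype.card_fin]; omega
  obtain ⟨M, -, hM⟩ := Finset.exists_subset_card_eq hmn
  have hMc : (Mᶜ).card = n - m := by
    rw [Finset.card_compl, Fintype.card_fin, hM]
  refine ⟨M.powerset.image (fun s => s ∪ Mᶜ), (Mᶜ).powersetCard l, ?_, ?_⟩
  · intro a ha b hb
    rw [Finset.mem_image] at ha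
    obtain ⟨s, _, rfl⟩ := ha
    rw [Finset.mem_powersetCard] at hb
    have h : (s ∪ Mᶜ) ∩ b = b := by
      apply Finset.inter_eq_right.2
      exact hb.1.trans Finset.subset_union_right
    rw [h, hb.2]
  · rw [Finset.card_image_of_injOn, Finset.card_powerset, Finset.card_powersetCard, hM, hMc]
    intro s hs t ht hst
    have hs' : s ⊆ M := Finset.mem_powerset.1 (by simpa using hs)
    have ht' : t ⊆ M := Finset.mem_powerset.1 (by simpa using ht)
    have key : ∀ u : Finset (Fin n), u ⊆ M → (u ∪ Mᶜ) ∩ M = u := by
      intro u hu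
      rw [Finset.union_inter_distrib_right, Finset.inter_eq_left.2 hu]
      have : Mᶜ ∩ M = ∅ := by
        rw [Finset.inter_comm]; exact Finset.inter_compl M
      rw [this, Finset.union_empty]
    rw [← key s hs', ← key t ht']
    simp only at hst
    rw [hst]

end Pool.Agent.W264.AHC

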